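import Pool.Agent.Lib.MP_e28e82_lc.HungryTwo

namespace Pool.Agent.Results.MP_e28e82_lc.HungryWaste

open Pool.Agent.Lib.MP_e28e82_lc Pool.Agent.Lib.MP_e28e82_lc.Hungry

theorem result (d : Density) (M : Mechanism 2) (α w : ℝ) (h0 : 0 < α)
    (hT : ∀ f : Fin 2 → Density, (∀ j, SameZeros d (f j)) → ∀ (i : Fin 2) (g : Density),
      SameZeros d g → (f i).value (M.alloc (Function.update f i g) i) ≤ (f i).value (M.alloc f i))
    (hα : ∀ f : Fin 2 → Density, (∀ j, SameZeros d (f j)) → ∀ j : Fin 2,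
      α / 2 * (f j).value (Set.Icc 0 1) ≤ (f j).value (M.alloc f j))
    (hw : ∀ f : Fin 2 → Density, (∀ j, SameZeros d (f j)) → ∀ j : Fin 2,
      (f j).value (Set.Icc 0 1 \ (M.alloc f 0 ∪ M.alloc f 1)) ≤ w * (f j).value (Set.Icc 0 1)) :
    α ^ 4 ≤ 544 * w :=
  two_agents d M α w h0 hT hα hw

end Pool.Agent.Results.MP_e28e82_lc.HungryWaste
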