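import Pool.Agent.Lib.MP_e28e82_lc.Reduce

namespace Pool.Agent.Results.MP_e28e82_lc.ObliviousImpossible

open Pool.Agent.Lib.MP_e28e82_lc

theorem result (n : ℕ) (hn : 2 ≤ n) (M : Mechanism n) (hT : M.Truthful)
    (hO : M.ObliviousOn Density.Uniform) (k : ℕ) (hk : 2 ≤ k) (α : ℝ)
    (hα : ∀ f : Fin n → Density, (∀ j, (f j).ValuesLe k) →
      ∀ i, α / n * (f i).value (Set.Icc 0 1) ≤ (f i).value (M.alloc f i)) :
    α ≤ n / k :=
  oblivious_bound n hn M hT hO k hk α hα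

end Pool.Agent.Results.MP_e28e82_lc.ObliviousImpossible
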