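import Pool.Agent.Lib.MP_e28e82_lc.Item.Defs
import Pool.Agent.Lib.MP_e28e82_lc.Item.SplitDefs
import Pool.Agent.Lib.MP_e28e82_lc.Item.Split

namespace Pool.Agent.Results.MP_e28e82_lc.SplitCells

open Pool.Agent.Lib.MP_e28e82_lc

/-- A truthful, approximately proportional mechanism must cut inside linearly many of the
intervals on which the reported densities are constant. -/
theorem result (n : ℕ) (hn : 2 ≤ n) (α : ℝ) (hα : 0 < α) : ∃ C : ℕ, ∀ M : Mechanism n,
    M.Truthful →
    (∀ (f : Fin n → Density) (i : Fin n),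
      α / n * (f i).value (Set.Icc 0 1) ≤ (f i).value (M.alloc f i)) →
    ∀ K : ℕ, ∃ f : Fin n → Density, (∀ j, (f j).BreaksLe (C * (K + 1))) ∧
      ∃ (i : Fin n) (s : Finset (Fin n → ℝ)), K < s.card ∧
        ∀ r ∈ s, SplitsAt f (M.alloc f i) r :=
  Item.split n hn α hα

end Pool.Agent.Results.MP_e28e82_lc.SplitCells
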