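import Pool.Agent.Lib.MP_e28e82_lc.Uniform

namespace Pool.Agent.Results.MP_e28e82_lc.UniformScale

open Pool.Agent.Lib.MP_e28e82_lc MeasureTheory Set

theorem result (n : ℕ) (hn : 2 ≤ n) :
    ∃ M : Mechanism n, M.Truthful ∧
      ∀ (f : Fin n → Density) (i : Fin n) (v : ℝ),
        v * (volume {x ∈ Icc (0 : ℝ) 1 | v ≤ (f i).val x}).toReal / (14 * (n : ℝ) - 7) ≤
          (f i).value (M.alloc f i) := by
  obtain ⟨M, h1, h2⟩ := exists_uniform n
  have hn' : (2 : ℝ) ≤ n := by exact_mod_cast hn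
  refine ⟨M, h1, fun f i v => ?_⟩
  rw [div_le_iff₀ (by linarith), mul_comm ((f i).value _)]
  have := h2 f i v
  rwa [Measure.real, m_eq_volume (PC_up (f i) v).measurableSet fun x hx => hx.1] at this

end Pool.Agent.Results.MP_e28e82_lc.UniformScale
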